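import Pool.Agent.Lib.MP_837412_lc.WAll

/-!
All Betti numbers, over the rationals or any other field, of arbitrary semi-algebraic sets are
computed by algebraic computation trees of singly exponential depth.
-/

namespace Pool.Agent.Results.MP_837412_lc.AllField

open Pool.Agent.Lib.MP_837412_lc

theorem result : ∃ c : ℕ, ∀ (K : Type) [Field K] (k s d : ℕ) (Φ : Set (Fin s → SignType)),
    ∃ T : Pool.Agent.Lib.MP_837412_lc.Tree (Fin s × (Fin k →₀ ℕ)),
      T.depth ≤ (s * (d + 1) + 2) ^ (k + 2) ^ c ∧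
      ∀ P : Fin s → MvPolynomial (Fin k) ℝ, (∀ j, (P j).totalDegree ≤ d) → ∀ i ≤ k,
        betti K (signSet P Φ) i =
          (T.run (fun q => MvPolynomial.coeff q.2 (P q.1)) []).getD i 0 :=
  ⟨63, fun L _ => @K.mainW ⟨L⟩⟩

end Pool.Agent.Results.MP_837412_lc.AllField
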