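import Pool.Agent.Lib.MP_837412_lc.XAll

/-!
One algorithm computes all mod 2 Betti numbers of arbitrary semi-algebraic sets in singly
exponential time.
-/

namespace Pool.Agent.Results.MP_837412_lc.UniformMod2

open Pool.Agent.Lib.MP_837412_lc

theorem result : ∃ (c : ℕ)
    (A : (ℕ × ℕ × ℕ × List ℕ) × List Bool × List ℤ → Bool × List ℕ × Ins),
    N68a2faeb.IsPolyTime A ∧
    ∀ (k s d : ℕ) (φ : Fm s) (P : Fin s → MvPolynomial (Fin k) ℝ), (∀ j, (P j).totalDegree ≤ d) →
      ∀ n, n = (s * (d + 1) + 2) ^ (k + 2) ^ c →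
      ∀ w, w = answer (fun h => A ((k, s, d, φ.code), List.replicate n true, h)) (n ^ c)
        (coeffs d P) → w.1 = true ∧
        ∀ i ≤ k, betti (ZMod 2) (signSet P φ.set) i = w.2.1.getD i 0 :=
  mainU.1

end Pool.Agent.Results.MP_837412_lc.UniformMod2
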