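import Pool.Agent.Lib.MP_837412_lc.XAll

/-!
One algorithm computes all rational Betti numbers of arbitrary semi-algebraic sets with singly
exponentially many ring operations and sign tests; its last, discrete stage has no time bound.
-/

namespace Pool.Agent.Results.MP_837412_lc.UniformQ

open Pool.Agent.Lib.MP_837412_lc

theorem result : ∃ (c : ℕ)
    (A : (ℕ × ℕ × ℕ × List ℕ) × List Bool × List ℤ → Bool × List ℕ × Ins)
    (M : Turing.TM2ComputableAux Bool Bool), N68a2faeb.IsPolyTime A ∧
    ∀ (k s d : ℕ) (φ : Fm s) (P : Fin s → MvPolynomial (Fin k) ℝ), (∀ j, (P j).totalDegree ≤ d) →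
      ∀ n, n = (s * (d + 1) + 2) ^ (k + 2) ^ c →
      ∀ w, w = answer (fun h => A ((k, s, d, φ.code), List.replicate n true, h)) (n ^ c)
        (coeffs d P) → w.1 = true ∧
        ∃ (b : List ℕ) (T : ℕ), Pool.Agent.Shared.PolyTime.Outputs M (N487b59b3.bitEncode w.2.1)
          (N487b59b3.bitEncode b) T ∧ ∀ i ≤ k, betti ℚ (signSet P φ.set) i = b.getD i 0 :=
  mainU.2

end Pool.Agent.Results.MP_837412_lc.UniformQ
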